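import Mathlib
import Pool.Agent.Lib_helper12.RevGeneral

/-!
# Reversible formally invertible maps over `ℂ` in `n` variables

`FMap n` is the group of formally invertible maps in `n` variables over `ℂ` (tuples of formal
power series without constant term with invertible linear part, under composition).
-/

namespace Pool.Agent.Results.MP_63f2dd_al.AllDimensions

open Pool.Agent.Lib_helper12.FormalMaps MvPowerSeries

/-- `f` is reversible: some `h` in the group satisfies `h ∘ f ∘ h⁻¹ = f⁻¹`. -/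
def IsReversible {n : ℕ} (f : FMap n) : Prop := ∃ h : FMap n, h * f * h⁻¹ = f⁻¹

/-- For every `n` and every formally invertible map `f` in `n` variables the following are
equivalent:
1. `f` is reversible;
2. `f` is reversed by an element of finite order, the order being a power of two;
3. some conjugate of `f` is reversed by a diagonal linear map whose entries are roots of unity
   of 2-power order;
4. `f` is conjugate to `A ∘ θ⁻¹ ∘ B ∘ θ` for diagonal linear maps `A = (a_i X_i)`,
   `B = (b_i X_i)` with entries roots of unity of 2-power order and a formally invertible `θ`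
   whose `i`-th component only involves monomials `X^d` with `a^(2d) b_i^2 = 1`;
5. `f` is conjugate to `s ∘ v ∘ K ∘ v⁻¹ ∘ K⁻¹` with a diagonal linear map `s`, a linear map `K` with
   `K^(2^k) = 1` for some `k` and `K s K⁻¹ = s⁻¹`, and a formally invertible `v` which commutes with
   `s` and with `K²`;
6. for every `k` the `k`-jet of `f` is reversible. -/
theorem result (n : ℕ) (f : FMap n) : List.TFAE [
    IsReversible f,
    ∃ h : FMap n, h * f * h⁻¹ = f⁻¹ ∧ ∃ k : ℕ, h ^ 2 ^ k = 1,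
    ∃ (g : FMap n) (a : Fin n → ℂˣ), (∃ k : ℕ, ∀ i, a i ^ 2 ^ k = 1) ∧
      diag a * (g * f * g⁻¹) * (diag a)⁻¹ = (g * f * g⁻¹)⁻¹,
    ∃ (g θ : FMap n) (a b : Fin n → ℂˣ), (∃ k : ℕ, ∀ i, a i ^ 2 ^ k = 1 ∧ b i ^ 2 ^ k = 1) ∧
      (∀ (i : Fin n) (d : Fin n →₀ ℕ), coeff d (θ.toFun i) ≠ 0 →
        (∏ j, a j ^ (2 * d j)) * b i ^ 2 = 1) ∧
      g * f * g⁻¹ = diag a * (θ⁻¹ * diag b * θ),
    ∃ (g v K : FMap n) (γ : Fin n → ℂˣ),
      (∃ M : Matrix (Fin n) (Fin n) ℂ, ∀ i, K.toFun i = ∑ j, M i j • (X j : MvPowerSeries (Fin n) ℂ)) ∧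
      (∃ k : ℕ, K ^ 2 ^ k = 1) ∧ K * diag γ * K⁻¹ = (diag γ)⁻¹ ∧
      v * diag γ = diag γ * v ∧ v * K ^ 2 = K ^ 2 * v ∧
      g * f * g⁻¹ = diag γ * (v * K * v⁻¹ * K⁻¹),
    ∀ k : ℕ, ∃ h : FMap n, ∀ (i : Fin n) (d : Fin n →₀ ℕ), Finsupp.degree d ≤ k →
      coeff d ((h * f).toFun i) = coeff d ((f⁻¹ * h).toFun i)] :=
  Pool.Agent.Lib_helper12.RevGeneral.general n f

end Pool.Agent.Results.MP_63f2dd_al.AllDimensions
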